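import Mathlib

namespace Pool.Agent.Results.MP_5bed1d_al.ZeroDistrib

/-- An algebra of type (2, 0). -/
structure Alg where
  A : Type
  f : A → A → A
  o : A

inductive Tm
  | var : ℕ → Tm
  | zero : Tm
  | imp : Tm → Tm → Tm

def Tm.eval (X : Alg) (v : ℕ → X.A) : Tm → X.A
  | .var i => v i
  | .zero => X.o
  | .imp s t => X.f (s.eval X v) (t.eval X v)

def Holds (X : Alg) (e : Tm × Tm) : Prop := ∀ v, e.1.eval X v = e.2.eval X v

/-- Implication zroupoids. -/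
def IZ (X : Alg) : Prop :=
  (∀ x y z, X.f (X.f x y) z = X.f (X.f (X.f (X.f z X.o) x) (X.f (X.f y z) X.o)) X.o) ∧
    X.f (X.f X.o X.o) X.o = X.o

/-- Varieties of implication zroupoids. -/
def IsVariety (V : Set Alg) : Prop := ∃ E : Set (Tm × Tm), V = {X | IZ X ∧ ∀ e ∈ E, Holds X e}

/-- The variety generated by the union. -/
def join (V W : Set Alg) : Set Alg := {X | ∀ e, (∀ Y ∈ V ∪ W, Holds Y e) → Holds X e}

def ZM : Set Alg := {X | IZ X ∧ ∀ x y, X.f x y = X.o}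

section
variable {A : Type} {f : A → A → A} {n : A → A} {o : A}

def Ax (f : A → A → A) (n : A → A) (o : A) : Prop :=
  (∀ x y z, f (f x y) z = n (f (f (n z) x) (n (f y z)))) ∧ n (n o) = o ∧ ∀ x, f x o = n x

lemma e3 (H : Ax f n o) (x0 x1 x2 : A) : (n (f (f (n x0) x1) (n (f x2 x0)))) = (f (f x1 x2) x0) :=
  (H.1 x1 x2 x0).symm
lemma e4 (H : Ax f n o) : (n (n o)) = o :=
  (H.2.1)
lemma e5 (H : Ax f n o) (x0 : A) : (f x0 o) = (n x0) :=
  (H.2.2 x0)
lemma e6 (H : Ax f n o) (x0 x1 : A) : (n (f (f (n o) x0) (n (n x1)))) = (n (f x0 x1)) :=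
  (congrArg (fun h => (n (f (f (n o) x0) (n h)))) (e5 H x1).symm).trans
    ((e3 H o x0 x1).trans
    ((e5 H (f x0 x1))))
lemma e7 (H : Ax f n o) (x0 : A) : (n (n (f (n o) x0))) = (n (n x0)) :=
  (congrArg (fun h => (n h)) (e5 H (f (n o) x0)).symm).trans
    ((congrArg (fun h => (n (f (f (n o) x0) h))) (e4 H).symm).trans
    ((e6 H x0 o).trans
    ((congrArg (fun h => (n h)) (e5 H x0)))))
lemma e9 (H : Ax f n o) (x0 x1 : A) : (n (f x0 (f (n o) x1))) = (n (f x0 x1)) :=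
  (e6 H x0 (f (n o) x1)).symm.trans
    ((congrArg (fun h => (n (f (f (n o) x0) h))) (e7 H x1)).trans
    ((e6 H x0 x1)))
lemma e11 (H : Ax f n o) (x0 x1 : A) : (n (f x0 (n (f (n o) x1)))) = (n (f x0 (n x1))) :=
  (e6 H x0 (n (f (n o) x1))).symm.trans
    ((congrArg (fun h => (n (f (f (n o) x0) (n h)))) (e7 H x1)).trans
    ((e6 H x0 (n x1))))
lemma e13 (H : Ax f n o) (x0 x1 : A) : (n (f (f (n x0) x1) (n x0))) = (f (f x1 (n o)) x0) :=
  (e11 H (f (n x0) x1) x0).symm.trans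
    ((e3 H x0 x1 (n o)))
lemma e14 (H : Ax f n o) (x0 : A) : (f (f x0 (n o)) (n o)) = (n (n (f o x0))) :=
  (e13 H (n o) x0).symm.trans
    ((congrArg (fun h => (n (f (f h x0) (n (n o))))) (e4 H)).trans
    ((congrArg (fun h => (n (f (f o x0) h))) (e4 H)).trans
    ((congrArg (fun h => (n h)) (e5 H (f o x0))))))
lemma e15 (H : Ax f n o) (x0 : A) : (n (f (n (n x0)) (n x0))) = (f (f o (n o)) x0) :=
  (congrArg (fun h => (n (f h (n x0)))) (e5 H (n x0)).symm).trans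
    ((e13 H x0 o))
lemma e16 (H : Ax f n o) : (n (n (n (f o (n o))))) = (n (f (n o) (n o))) :=
  (congrArg (fun h => (n h)) (e14 H (n o)).symm).trans
    ((e13 H o (n o)).trans
    ((e5 H (f (n o) (n o)))))
lemma e18 (H : Ax f n o) (x0 : A) : (n (f x0 (n (f o (n o))))) = (n (n x0)) :=
  (e6 H x0 (n (f o (n o)))).symm.trans
    ((congrArg (fun h => (n (f (f (n o) x0) h))) (e16 H)).trans
    ((e11 H (f (n o) x0) (n o)).trans
    ((congrArg (fun h => (n (f (f (n o) x0) h))) (e4 H)).trans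
    ((congrArg (fun h => (n h)) (e5 H (f (n o) x0))).trans
    ((e7 H x0))))))
lemma e19 (H : Ax f n o) : (n (f (n o) (n o))) = o :=
  (e16 H).symm.trans
    ((e7 H (n (f o (n o)))).symm.trans
    ((congrArg (fun h => (n h)) (e18 H (n o))).trans
    ((congrArg (fun h => (n (n h))) (e4 H)).trans
    ((e4 H)))))
lemma e20 (H : Ax f n o) : (n (n (n (f o (n o))))) = o :=
  (e16 H).trans
    ((e19 H))
lemma e21 (H : Ax f n o) (x0 : A) : (f (n x0) (n o)) = (n (n (f o x0))) :=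
  (congrArg (fun h => (f h (n o))) (e5 H x0).symm).trans
    ((e3 H (n o) x0 o).symm.trans
    ((e18 H (f (n (n o)) x0)).trans
    ((congrArg (fun h => (n (n (f h x0)))) (e4 H)))))
lemma e22 (H : Ax f n o) : (n (f o (n o))) = o :=
  (e5 H (f o (n o))).symm.trans
    ((e15 H o).symm.trans
    ((congrArg (fun h => (n h)) (e21 H (n o))).trans
    ((e20 H))))
lemma e24 (H : Ax f n o) : (f o (n o)) = (n o) :=
  (congrArg (fun h => (f h (n o))) (e4 H).symm).trans
    ((e21 H (n o)).trans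
    ((congrArg (fun h => (n h)) (e22 H))))
lemma e25 (H : Ax f n o) (x0 : A) : (n (f (n (n x0)) (n x0))) = (f (n o) x0) :=
  (e15 H x0).trans
    ((congrArg (fun h => (f h x0)) (e24 H)))
lemma e26 (H : Ax f n o) (x0 : A) : (f (n o) (f (n o) x0)) = (f (n o) x0) :=
  (e25 H (f (n o) x0)).symm.trans
    ((congrArg (fun h => (n (f h (n (f (n o) x0))))) (e7 H x0)).trans
    ((e11 H (n (n x0)) x0).trans
    ((e25 H x0))))
lemma e27 (H : Ax f n o) (x0 x1 : A) : (n (f (f (n o) x0) x1)) = (n (f x0 x1)) :=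
  (e5 H (f (f (n o) x0) x1)).symm.trans
    ((e3 H o (f (n o) x0) x1).symm.trans
    ((congrArg (fun h => (n (f h (n (f x1 o))))) (e26 H x0)).trans
    ((congrArg (fun h => (n (f (f (n o) x0) (n h)))) (e5 H x1)).trans
    ((e6 H x0 x1)))))
lemma e28 (H : Ax f n o) (x0 x1 : A) : (n (f x0 (n (n x1)))) = (n (f x0 x1)) :=
  (e27 H x0 (n (n x1))).symm.trans
    ((e6 H x0 x1))
lemma e29 (H : Ax f n o) (x0 : A) : (n (n (n (n x0)))) = (n (n x0)) :=
  (e7 H (n (n x0))).symm.trans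
    ((congrArg (fun h => (n h)) (e28 H (n o) x0)).trans
    ((e7 H x0)))
lemma e30 (H : Ax f n o) (x0 : A) : (n (f (n o) x0)) = (n (n (n x0))) :=
  (congrArg (fun h => (n h)) (e25 H x0).symm).trans
    ((e29 H (f (n (n x0)) (n x0))).symm.trans
    ((congrArg (fun h => (n (n (n h)))) (e25 H x0)).trans
    ((congrArg (fun h => (n h)) (e7 H x0)))))
lemma e31 (H : Ax f n o) (x0 : A) : (f (n o) (n (n x0))) = (f (n o) x0) :=
  (e25 H (n (n x0))).symm.trans
    ((congrArg (fun h => (n (f h (n (n (n x0)))))) (e29 H x0)).trans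
    ((e28 H (n (n x0)) (n x0)).trans
    ((e25 H x0))))
lemma e32 (H : Ax f n o) (x0 x1 : A) : (n (f (n (n x0)) x1)) = (n (f x0 x1)) :=
  (e5 H (f (n (n x0)) x1)).symm.trans
    ((e3 H o (n (n x0)) x1).symm.trans
    ((congrArg (fun h => (n (f h (n (f x1 o))))) (e31 H x0)).trans
    ((congrArg (fun h => (n (f (f (n o) x0) (n h)))) (e5 H x1)).trans
    ((e27 H x0 (n (n x1))).trans
    ((e28 H x0 x1))))))
lemma e33 (H : Ax f n o) (x0 : A) : (n (f x0 (n x0))) = (f (n o) x0) :=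
  (e32 H x0 (n x0)).symm.trans
    ((e25 H x0))
lemma e34 (H : Ax f n o) (x0 : A) : (f (n o) (n x0)) = (n (f (n x0) x0)) :=
  (e33 H (n x0)).symm.trans
    ((e28 H (n x0) x0))
lemma e36 (H : Ax f n o) (x0 x1 : A) : (f (f x0 (n x1)) x1) = (f (f x0 (n o)) x1) :=
  (e3 H x1 x0 (n x1)).symm.trans
    ((congrArg (fun h => (n (f (f (n x1) x0) h))) (e34 H x1).symm).trans
    ((e9 H (f (n x1) x0) (n x1)).trans
    ((e13 H x1 x0))))
lemma e37 (H : Ax f n o) (x0 : A) : (n (f (n x0) x0)) = (n (n (n x0))) :=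
  (e27 H (n x0) x0).symm.trans
    ((congrArg (fun h => (n h)) (e36 H (n o) x0)).trans
    ((congrArg (fun h => (n (f h x0))) (e21 H o)).trans
    ((congrArg (fun h => (n (f (n (n h)) x0))) (e5 H o)).trans
    ((congrArg (fun h => (n (f (n h) x0))) (e4 H)).trans
    ((e30 H x0))))))
lemma e38 (H : Ax f n o) (x0 : A) : (f (n o) (n x0)) = (n (n (n x0))) :=
  (e34 H x0).trans
    ((e37 H x0))
lemma e39 (H : Ax f n o) (x0 : A) : (f (n o) x0) = (n (n x0)) :=
  (e31 H x0).symm.trans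
    ((e38 H (n x0)).trans
    ((e29 H x0)))
lemma e40 (H : Ax f n o) (x0 : A) : (n (f x0 (n x0))) = (n (n x0)) :=
  (e33 H x0).trans
    ((e39 H x0))
lemma e41 (H : Ax f n o) (x0 : A) : (f (n (n (n x0))) x0) = (n (n x0)) :=
  (congrArg (fun h => (f h x0)) (e39 H (n x0)).symm).trans
    ((e36 H (n o) x0).trans
    ((congrArg (fun h => (f h x0)) (e21 H o)).trans
    ((congrArg (fun h => (f (n (n h)) x0)) (e5 H o)).trans
    ((congrArg (fun h => (f (n h) x0)) (e4 H)).trans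
    ((e39 H x0))))))
lemma e46 (H : Ax f n o) (x0 x1 x2 : A) : (f (f x0 (n (n x1))) x2) = (f (f x0 x1) x2) :=
  (e3 H x2 x0 (n (n x1))).symm.trans
    ((congrArg (fun h => (n (f (f (n x2) x0) h))) (e32 H x1 x2)).trans
    ((e3 H x2 x0 x1)))
lemma e49 (H : Ax f n o) (x0 : A) : (n (n (n (f o (n x0))))) = (n (f x0 (n o))) :=
  (congrArg (fun h => (n h)) (e21 H (n x0)).symm).trans
    ((e32 H x0 (n o)))
lemma e50 (H : Ax f n o) (x0 : A) : (n (n (f o (n x0)))) = (n (n (f x0 (n o)))) :=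
  (e29 H (f o (n x0))).symm.trans
    ((congrArg (fun h => (n h)) (e49 H x0)))
lemma e53 (H : Ax f n o) (x0 x1 x2 : A) : (f (f (n (n x0)) x1) x2) = (f (f x0 x1) x2) :=
  (e3 H x2 (n (n x0)) x1).symm.trans
    ((congrArg (fun h => (n h)) (e46 H (n x2) x0 (n (f x1 x2)))).trans
    ((e3 H x2 x0 x1)))
lemma e54 (H : Ax f n o) (x0 x1 : A) : (f (n (n (n x0))) x1) = (f (n x0) x1) :=
  (congrArg (fun h => (f h x1)) (e5 H (n (n x0))).symm).trans
    ((e53 H x0 o x1).trans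
    ((congrArg (fun h => (f h x1)) (e5 H x0))))
lemma e55 (H : Ax f n o) (x0 : A) : (f (n x0) x0) = (n (n x0)) :=
  (e54 H x0 x0).symm.trans
    ((e41 H x0))
lemma e58 (H : Ax f n o) (x0 : A) : (n (n (n (f x0 (n o))))) = (n (f x0 (n o))) :=
  (congrArg (fun h => (n (n h))) (e49 H x0).symm).trans
    ((e29 H (n (f o (n x0)))).trans
    ((e49 H x0)))
lemma e60 (H : Ax f n o) (x0 x1 x2 : A) : (f (f x0 x1) (n (n x2))) = (f (f x0 x1) x2) :=
  (e3 H (n (n x2)) x0 x1).symm.trans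
    ((congrArg (fun h => (n (f h (n (f x1 (n (n x2))))))) (e54 H x2 x0)).trans
    ((congrArg (fun h => (n (f (f (n x2) x0) h))) (e28 H x1 x2)).trans
    ((e3 H x2 x0 x1))))
lemma e61 (H : Ax f n o) (x0 x1 : A) : (f (n x0) (n (n x1))) = (f (n x0) x1) :=
  (congrArg (fun h => (f h (n (n x1)))) (e5 H x0).symm).trans
    ((e60 H x0 o x1).trans
    ((congrArg (fun h => (f h x1)) (e5 H x0))))
lemma e62 (H : Ax f n o) (x0 : A) : (f o (n (n x0))) = (f o x0) :=
  (congrArg (fun h => (f h (n (n x0)))) (e4 H).symm).trans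
    ((e61 H (n o) x0).trans
    ((congrArg (fun h => (f h x0)) (e4 H))))
lemma e65 (H : Ax f n o) (x0 x1 : A) : (n (f x0 (n (f x1 x0)))) = (f (f x0 x1) x0) :=
  (e32 H x0 (n (f x1 x0))).symm.trans
    ((congrArg (fun h => (n (f h (n (f x1 x0))))) (e55 H x0).symm).trans
    ((e3 H x0 x0 x1)))
lemma e71 (H : Ax f n o) (x0 x1 : A) : (f (f x0 x1) (n x1)) = (n (f (f x1 x0) x1)) :=
  (e3 H (n x1) x0 x1).symm.trans
    ((congrArg (fun h => (n (f (f (n (n x1)) x0) h))) (e40 H x1)).trans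
    ((congrArg (fun h => (n h)) (e53 H x1 x0 (n (n x1)))).trans
    ((congrArg (fun h => (n h)) (e60 H x1 x0 x1)))))
lemma e73 (H : Ax f n o) (x0 x1 : A) : (f (f x0 (n o)) (n x1)) = (n (f (f x1 x0) x1)) :=
  (e36 H x0 (n x1)).symm.trans
    ((e46 H x0 x1 (n x1)).trans
    ((e71 H x0 x1)))
lemma e76 (H : Ax f n o) (x0 x1 : A) : (f (f (n x0) (n x1)) x1) = (f (n (n (f o x0))) x1) :=
  (e36 H (n x0) x1).trans
    ((congrArg (fun h => (f h x1)) (e21 H x0)))
lemma e77 (H : Ax f n o) (x0 : A) : (n (f (f o x0) (n o))) = (n (f x0 (n o))) :=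
  (e49 H (f o x0)).symm.trans
    ((congrArg (fun h => (n h)) (e50 H (f o x0))).trans
    ((congrArg (fun h => (n (n h))) (e49 H (f o x0)).symm).trans
    ((congrArg (fun h => (n (n (n h)))) (e21 H (n (f o x0))).symm).trans
    ((congrArg (fun h => (n (n (n h)))) (e76 H x0 (n o)).symm).trans
    ((e58 H (f (n x0) (n (n o)))).trans
    ((congrArg (fun h => (n (f (f (n x0) h) (n o)))) (e4 H)).trans
    ((congrArg (fun h => (n (f h (n o)))) (e5 H (n x0))).trans
    ((congrArg (fun h => (n h)) (e21 H (n x0))).trans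
    ((e49 H x0))))))))))
lemma e86 (H : Ax f n o) (x0 x1 x2 : A) : (n (n (n (f (f x0 x1) x2)))) = (n (f (f x0 x1) x2)) :=
  (congrArg (fun h => (n (n (n h)))) (e3 H x2 x0 x1).symm).trans
    ((e29 H (f (f (n x2) x0) (n (f x1 x2)))).trans
    ((congrArg (fun h => (n h)) (e3 H x2 x0 x1))))
lemma e87 (H : Ax f n o) (x0 x1 : A) : (n (n (n (f x0 x1)))) = (n (f x0 x1)) :=
  (congrArg (fun h => (n (n h))) (e32 H x0 x1).symm).trans
    ((congrArg (fun h => (n (n (n (f h x1))))) (e39 H x0).symm).trans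
    ((e86 H (n o) x0 x1).trans
    ((congrArg (fun h => (n (f h x1))) (e39 H x0)).trans
    ((e32 H x0 x1)))))
lemma e88 (H : Ax f n o) (x0 : A) : (n (f o (n x0))) = (n (f x0 (n o))) :=
  (e87 H o (n x0)).symm.trans
    ((e49 H x0))
lemma e89 (H : Ax f n o) (x0 : A) : (n (f o (n (f o x0)))) = (n (f x0 (n o))) :=
  (e88 H (f o x0)).trans
    ((e77 H x0))
lemma e90 (H : Ax f n o) (x0 x1 : A) : (n (n (f (f x0 x1) x0))) = (f (f x0 x1) x0) :=
  (congrArg (fun h => (n (n h))) (e65 H x0 x1).symm).trans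
    ((e87 H x0 (n (f x1 x0))).trans
    ((e65 H x0 x1)))
lemma e91 (H : Ax f n o) (x0 : A) : (n (f o (n (f x0 (n o))))) = (n (f o x0)) :=
  (e88 H (f x0 (n o))).trans
    ((congrArg (fun h => (n h)) (e73 H x0 o)).trans
    ((congrArg (fun h => (n (n h))) (e5 H (f o x0))).trans
    ((e87 H o x0))))
lemma e92 (H : Ax f n o) (x0 : A) : (n (f o (f x0 (n o)))) = (n (f x0 (n o))) :=
  (e91 H (f x0 (n o))).symm.trans
    ((congrArg (fun h => (n (f o (n h)))) (e73 H x0 o)).trans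
    ((congrArg (fun h => (n (f o (n (n h))))) (e5 H (f o x0))).trans
    ((congrArg (fun h => (n (f o h))) (e87 H o x0)).trans
    ((e89 H x0)))))
lemma e93 (H : Ax f n o) (x0 : A) : (n (f o (f o x0))) = (n (f o x0)) :=
  (congrArg (fun h => (n h)) (e62 H (f o x0)).symm).trans
    ((congrArg (fun h => (n (f o h))) (e21 H x0).symm).trans
    ((e92 H (n x0)).trans
    ((congrArg (fun h => (n h)) (e21 H x0)).trans
    ((e87 H o x0)))))
lemma e95 (H : Ax f n o) (x0 x1 : A) : (f (f (n x0) x1) (n x0)) = (n (f (f x1 (n o)) x0)) :=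
  (e90 H (n x0) x1).symm.trans
    ((congrArg (fun h => (n h)) (e13 H x0 x1)))
lemma e96 (H : Ax f n o) (x0 x1 : A) : (n (n (f (f x0 (n o)) x1))) = (f (f x0 (n o)) x1) :=
  (congrArg (fun h => (n h)) (e95 H x1 x0).symm).trans
    ((e13 H x1 x0))
lemma e97 (H : Ax f n o) (x0 x1 : A) : (f (f x0 x1) x0) = (n (f (f x1 (n o)) (n x0))) :=
  (e90 H x0 x1).symm.trans
    ((congrArg (fun h => (n h)) (e73 H x1 x0).symm))
lemma e98 (H : Ax f n o) (x0 x1 : A) : (f (f x0 (n x1)) x0) = (n (f (f o x1) (n x0))) :=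
  (e97 H x0 (n x1)).trans
    ((congrArg (fun h => (n (f h (n x0)))) (e21 H x1)).trans
    ((e32 H (f o x1) (n x0))))
lemma e103 (H : Ax f n o) (x0 x1 x2 : A) : (n (f (f x0 x1) (n (f x2 (n x0))))) = (f (f x1 x2) (n x0)) :=
  (congrArg (fun h => (n h)) (e53 H x0 x1 (n (f x2 (n x0)))).symm).trans
    ((congrArg (fun h => (n (f (f (n (n x0)) x1) h))) (e28 H x2 (n x0)).symm).trans
    ((congrArg (fun h => (n (f (f h x1) (n (f x2 (n (n (n x0)))))))) (e29 H x0).symm).trans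
    ((e3 H (n (n (n x0))) x1 x2).trans
    ((e60 H x1 x2 (n x0))))))
lemma e104 (H : Ax f n o) (x0 x1 : A) : (n (f (f x0 (n o)) x1)) = (f (f o x0) (n x1)) :=
  (e95 H x1 x0).symm.trans
    ((e65 H (n x1) x0).symm.trans
    ((congrArg (fun h => (n (f h (n (f x0 (n x1)))))) (e5 H x1).symm).trans
    ((e103 H x1 o x0))))
lemma e107 (H : Ax f n o) (x0 x1 : A) : (n (f (f o x0) (n x1))) = (f (f x0 (n o)) x1) :=
  (congrArg (fun h => (n h)) (e104 H x0 x1).symm).trans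
    ((e96 H x0 x1))
lemma e108 (H : Ax f n o) (x0 x1 : A) : (f (f x0 x1) x0) = (f (f o x1) x0) :=
  (e97 H x0 x1).trans
    ((e104 H x1 (n x0)).trans
    ((e60 H o x1 x0)))
lemma e110 (H : Ax f n o) (x0 x1 : A) : (f (f x0 (n x1)) x0) = (f (f x1 (n o)) x0) :=
  (e98 H x0 x1).trans
    ((e107 H x1 x0))
lemma e113 (H : Ax f n o) (x0 x1 : A) : (f (f x0 (n o)) x1) = (f (f o (n x0)) x1) :=
  (e110 H x1 x0).symm.trans
    ((e108 H x1 (n x0)))
lemma e114 (H : Ax f n o) (x0 : A) : (n (n (f o (n x0)))) = (f o (n x0)) :=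
  (e40 H (f o (n x0))).symm.trans
    ((congrArg (fun h => (n h)) (e113 H x0 (n (f o (n x0)))).symm).trans
    ((e103 H x0 (n o) o).trans
    ((congrArg (fun h => (f h (n x0))) (e5 H (n o))).trans
    ((congrArg (fun h => (f h (n x0))) (e4 H))))))
lemma e115 (H : Ax f n o) (x0 : A) : (n (n (f o x0))) = (f o x0) :=
  (congrArg (fun h => (n h)) (e28 H o x0).symm).trans
    ((e114 H (n x0)).trans
    ((e62 H x0)))
lemma e121 (H : Ax f n o) (x0 : A) : (f o (f o x0)) = (f o x0) :=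
  (e115 H (f o x0)).symm.trans
    ((congrArg (fun h => (n h)) (e93 H x0)).trans
    ((e115 H x0)))
lemma e140 (H : Ax f n o) (x0 x1 : A) : (f (f o (n x0)) (f x1 x0)) = (f (n (n x1)) x0) :=
  (e60 H o (n x0) (f x1 x0)).symm.trans
    ((e104 H (n x0) (n (f x1 x0))).symm.trans
    ((e3 H x0 (n o) x1).trans
    ((congrArg (fun h => (f h x0)) (e39 H x1)))))
lemma e141 (H : Ax f n o) (x0 x1 : A) : (f (n (n x0)) x1) = (n (n (f x0 x1))) :=
  (e140 H x1 x0).symm.trans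
    ((congrArg (fun h => (f h (f x0 x1))) (e121 H (n x1)).symm).trans
    ((e108 H (f x0 x1) (f o (n x1))).symm.trans
    ((e65 H (f x0 x1) (f o (n x1))).symm.trans
    ((congrArg (fun h => (n (f (f x0 x1) (n h)))) (e140 H x1 x0)).trans
    ((congrArg (fun h => (n (f (f x0 x1) h))) (e32 H x0 x1)).trans
    ((e40 H (f x0 x1))))))))
lemma e142 (H : Ax f n o) (x0 x1 x2 : A) : (n (n (f (f x0 x1) x2))) = (f (f x0 x1) x2) :=
  (e141 H (f x0 x1) x2).symm.trans
    ((congrArg (fun h => (f h x2)) (e141 H x0 x1).symm).trans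
    ((e53 H x0 x1 x2)))
lemma key (a b c : A) (H : Ax f n o) : (n (n (f (f a b) c))) = (f (f a b) c) :=
  (e142 H a b c)
end

lemma inv {V : Set Alg} (hV : IsVariety V) (h : ¬ ZM ⊆ V) (Y : Alg) (hY : Y ∈ V) :
    Holds Y (.imp (.imp (.var 0) .zero) .zero, .var 0) := by
  obtain ⟨E, rfl⟩ := hV
  obtain ⟨X, ⟨h1, h2⟩, h3⟩ := Set.not_subset.1 h
  simp only [Set.mem_ofPred_eq, h1, true_and, not_forall] at h3
  obtain ⟨⟨s, t⟩, he, h3⟩ := h3
  have h4 : ∀ (i : ℕ) (t : Tm), Holds Y (.var i, t) → ¬ Holds X (.var i, t) →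
      ∀ b, ∃ p q, b = Y.f p q := by
    intro i t h5 h6 b
    cases t with
    | var j =>
      have : j ≠ i := by rintro rfl; exact h6 fun _ => rfl
      exact ⟨b, b, by simpa [Tm.eval, this] using h5 (Function.update (fun _ => Y.f b b) i b)⟩
    | zero => exact ⟨b, b, (h5 fun _ => b).trans (h5 fun _ => Y.f b b).symm⟩
    | imp s t => exact ⟨_, _, h5 fun _ => b⟩
  have h5 : ∀ b, ∃ p q, b = Y.f p q := by
    have h6 := hY.2 _ he
    cases s with
    | var i => exact h4 i t h6 h3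
    | zero =>
      cases t with
      | var i => exact h4 i _ (fun v => (h6 v).symm) fun h => h3 fun v => (h v).symm
      | zero => exact (h3 fun _ => rfl).elim
      | imp => exact (h3 fun _ => (h2 _ _).symm).elim
    | imp =>
      cases t with
      | var i => exact h4 i _ (fun v => (h6 v).symm) fun h => h3 fun v => (h v).symm
      | zero => exact (h3 fun _ => h2 _ _).elim
      | imp => exact (h3 fun _ => (h2 _ _).trans (h2 _ _).symm).elim
  intro v
  obtain ⟨p, q, h6⟩ := h5 (v 0)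
  obtain ⟨a, b, rfl⟩ := h5 p
  change Y.f (Y.f (v 0) Y.o) Y.o = v 0
  rw [h6]
  exact key (n := fun x => Y.f x Y.o) a b q ⟨hY.1.1, hY.1.2, fun _ => rfl⟩

theorem result (V W : Set Alg) (hV : IsVariety V) (hW : IsVariety W) (h1 : ¬ ZM ⊆ V)
    (h2 : ¬ ZM ⊆ W) : ¬ ZM ⊆ join V W := by
  intro h
  have := h (a := ⟨Bool, fun _ _ => false, false⟩) ⟨⟨fun _ _ _ => rfl, rfl⟩, fun _ _ => rfl⟩ _
    (fun Y hY => hY.elim (inv hV h1 Y) (inv hW h2 Y)) fun _ => true
  exact Bool.noConfusion this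

end Pool.Agent.Results.MP_5bed1d_al.ZeroDistrib
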